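import Pool.Agent.H24.RSM.Main

/-!
# The minimal degree of a rational sphere map with prescribed finite source group
-/

namespace Pool.Agent.Results.MP_9c6456_an.SourceGroupDegree

open Pool.Agent.H24.RSM

/-- For every finite subgroup `G` of `U(n)`, `n ≥ 1`, the minimal degree of a rational sphere map
whose Hermitian source group is `G` equals `1 + e`, where `e ≥ 2` is least such that `G` is
exactly the set of unitary matrices fixing all `G`-invariant polynomials in `z, conj z` of
bidegree at most `(e, e)`; such an `e` exists and is at most `max 2 |G|`. -/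
theorem result (n : ℕ) (hn : 1 ≤ n) (G : Subgroup (Matrix.unitaryGroup (Fin n) ℂ))
    (hG : Finite G) :
    (∃ e, 2 ≤ e ∧ e ≤ max 2 (Nat.card G) ∧ Determines G e) ∧
    IsLeast {k | ∃ (N : ℕ) (f : RatSphereMap n N), HasSourceGroup f G ∧ f.degree = k}
      (1 + sInf {e | 2 ≤ e ∧ Determines G e}) :=
  main n G hn hG

end Pool.Agent.Results.MP_9c6456_an.SourceGroupDegree
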